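import Pool.Agent.K3h19.RV.Fin

/-! Almost primes `n - p` with a small prime `p`, very few exceptions: one window. -/

set_option autoImplicit false

namespace Pool.Agent.K3h19.RV

open Finset Filter
open Pool.Agent.W23.DC
open Pool.Agent.Y882
open Pool.Agent.Y882.KW
open Pool.Agent.Y882.GW
open Pool.Agent.Y882.GX

open Classical in
/-- one window -/
theorem blk1 (r : ℕ) (θ τ ζ υ lam S : ℝ) (hθ0 : 0 < θ) (hθ1 : θ ≤ 1) (hζ0 : 0 < ζ)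
    (h2 : 2 * ζ < τ) (h4 : τ ≤ 4 * ζ) (hθτ : θ / 2 ≤ τ) (hτθ : τ < θ) (hζυ : ζ ≤ υ) (hυτ : υ < τ)
    (hlam : 0 < lam)
    (hJ0 : ∫ x in ζ..υ, (lam - lam / υ * x) / (τ - x) / x < Real.log (τ / ζ - 1) / τ)
    (hS : 1 < S) (hr : 1 / lam + S / υ ≤ r + 1) (ε : ℝ) (hε : 0 < ε) :
    ∃ δ : ℝ, 0 < δ ∧ ∃ Y0 : ℕ, ∀ Y : ℕ, Y0 ≤ Y → ∀ x : ℝ, (Y : ℝ) ^ θ ≤ x → x ≤ Y →
      (((Ioc Y (2 * Y)).filter (fun n => Even n ∧ ((gp r x ((Y : ℝ) ^ ζ) n).card : ℝ) <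
        δ * x / Real.log Y ^ 2 * sgs n)).card : ℝ) ≤
      (Y : ℝ) ^ (2 * τ - θ + ε) := by
  have hυ0 : 0 < υ := by linarith
  obtain ⟨δ, hδ, Y1, HD⟩ := dyadic1 θ τ ζ υ lam (lam / υ) ε hθ0 hθ1 hζ0 h2 h4 hθτ hτθ hζυ hυτ
    hlam.le (by positivity) (by rw [div_mul_cancel₀ _ hυ0.ne']) hJ0 hε
  set s : ℝ := min ((θ - υ) / 2) (ζ / 2) with hs
  have hs0 : 0 < s := lt_min (by linarith) (by linarith)
  have hsθ : s ≤ (θ - υ) / 2 := min_le_left _ _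
  have hsζ : s ≤ ζ / 2 := min_le_right _ _
  obtain ⟨Y2, HP⟩ := pass r θ ζ υ lam S δ s hθ0 hθ1 hζ0 hζυ (by linarith) hlam hδ hs0
    (by linarith) hS hr
  refine ⟨δ / 4, by positivity, max Y1 Y2, fun Y hY x hYx hxY => ?_⟩
  have hY1 : Y1 ≤ Y := (le_max_left _ _).trans hY
  have hY2 : Y2 ≤ Y := (le_max_right _ _).trans hY
  refine HD Y hY1 x hYx hxY _ fun n hn => ?_
  rw [mem_filter, mem_Ioc] at hn
  obtain ⟨⟨hn1, hn2⟩, hev, hlt⟩ := hn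
  refine ⟨hn1, hn2, hev, ?_⟩
  by_contra hcon
  push Not at hcon
  have hb : (((Icc 1 ⌊x⌋₊).filter (fun m => SBad Y (max ζ (θ - 2 * s)) υ n m)).card : ℝ) ≤
        (⌊x⌋₊ : ℝ) / (Y : ℝ) ^ s := by
    have : (Icc 1 ⌊x⌋₊).filter (fun m => SBad Y (max ζ (θ - 2 * s)) υ n m) = ∅ := by
      apply filter_eq_empty_iff.2
      rintro m _ ⟨q, hq, _⟩
      unfold pr at hq
      rw [mem_filter] at hq
      have h5 : θ - 2 * s ≤ max ζ (θ - 2 * s) := le_max_right _ _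
      linarith [hq.2.2.1, hq.2.2.2]
    rw [this]
    simp only [card_empty, Nat.cast_zero]
    positivity
  exact absurd (HP Y hY2 x hYx hxY n hn1 hn2 hcon hb) (not_le.2 hlt)

end Pool.Agent.K3h19.RV
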