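import Pool.Agent.Y882.Err

/-! A large sieve inequality for sparse sets of integers, by the divisor bound. -/

set_option autoImplicit false

open Finset

namespace Pool.Agent.K3h19.RV

open Pool.Agent.Y882
open Pool.Agent.Helper112 Pool.Agent.Helper112.BLB Pool.Agent.Helper112.MLS

theorem A_ind (Z g f : ℕ) (S : Finset ℕ) (hS : S ⊆ Icc 1 Z) (χ : DirichletCharacter ℂ f) :
    A Z (res g (ind S)) f χ = ∑ n ∈ S.filter (fun n => n.Coprime g), χ (n : ZMod f) := by
  classical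
  unfold A
  rw [sum_filter, ← sum_subset hS]
  · apply sum_congr rfl
    intro n hn
    unfold res ind
    rw [if_pos hn]
    split_ifs <;> simp
  · intro n _ hn
    unfold res ind
    rw [if_neg hn]
    split_ifs <;> simp

open Classical in
theorem all_chars (f : ℕ) [NeZero f] (T : Finset ℕ) :
    ∑ χ : DirichletCharacter ℂ f, ‖∑ n ∈ T, χ (n : ZMod f)‖ ^ 2 ≤
      (Nat.totient f : ℝ) * ((T ×ˢ T).filter
        (fun p : ℕ × ℕ => (p.1 : ZMod f) = (p.2 : ZMod f))).card := by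
  set G : ZMod f → ℂ := fun a => ((T.filter (fun n : ℕ => (n : ZMod f) = a)).card : ℂ) with hG
  have e1 : ∀ χ : DirichletCharacter ℂ f, ∑ n ∈ T, χ (n : ZMod f) = ∑ a : ZMod f, χ a * G a := by
    intro χ
    have h1 : ∀ a : ZMod f, χ a * G a = ∑ n ∈ T, if (n : ZMod f) = a then χ (n : ZMod f) else 0 := by
      intro a
      rw [hG]
      simp only
      rw [card_eq_sum_ones, sum_filter]
      push_cast
      rw [mul_sum]
      apply sum_congr rfl
      intro n _
      split_ifs with h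
      · rw [h, mul_one]
      · rw [mul_zero]
    simp_rw [h1]
    rw [sum_comm]
    apply sum_congr rfl
    intro n _
    rw [sum_ite_eq univ (n : ZMod f) (fun _ => χ (n : ZMod f)), if_pos (mem_univ _)]
  have e2 : ∑ χ : DirichletCharacter ℂ f, ‖∑ n ∈ T, χ (n : ZMod f)‖ ^ 2 =
      ∑ χ : DirichletCharacter ℂ f, ‖∑ a : ZMod f, χ⁻¹ a * G a‖ ^ 2 := by
    rw [← Equiv.sum_comp (Equiv.inv (DirichletCharacter ℂ f))]
    apply sum_congr rfl
    intro χ _
    rw [e1]
    rfl
  rw [e2, sum_all]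
  apply mul_le_mul_of_nonneg_left _ (Nat.cast_nonneg _)
  have e3 : ∑ a : (ZMod f)ˣ, ‖G (a : ZMod f)‖ ^ 2 ≤ ∑ a : ZMod f, ‖G a‖ ^ 2 := by
    have h1 : ∑ a : (ZMod f)ˣ, ‖G (a : ZMod f)‖ ^ 2 =
        ∑ a ∈ (univ : Finset (ZMod f)ˣ).image (fun a : (ZMod f)ˣ => (a : ZMod f)), ‖G a‖ ^ 2 := by
      rw [sum_image]
      intro a _ b _ hab
      exact Units.ext hab
    rw [h1]
    exact sum_le_sum_of_subset_of_nonneg (subset_univ _) (fun _ _ _ => by positivity)
  refine e3.trans (le_of_eq ?_)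
  have e4 : ((T ×ˢ T).filter
        (fun p : ℕ × ℕ => (p.1 : ZMod f) = (p.2 : ZMod f))).card =
      ∑ a : ZMod f, (T.filter (fun n : ℕ => (n : ZMod f) = a)).card ^ 2 := by
    rw [card_eq_sum_card_fiberwise (f := fun p : ℕ × ℕ => (p.1 : ZMod f)) (t := univ)
      (fun _ _ => mem_coe.2 (mem_univ _))]
    apply sum_congr rfl
    intro a _
    rw [sq, ← card_product]
    congr 1
    ext p
    simp only [mem_filter, mem_product]
    constructor
    · rintro ⟨⟨⟨h1, h2⟩, h3⟩, h4⟩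
      exact ⟨⟨h1, h4⟩, h2, by rw [← h3, h4]⟩
    · rintro ⟨⟨h1, h2⟩, h3, h4⟩
      exact ⟨⟨⟨h1, h3⟩, by rw [h2, h4]⟩, h2⟩
  rw [e4]
  push_cast
  apply sum_congr rfl
  intro a _
  rw [hG]
  simp only
  rw [Complex.norm_natCast]

open Classical in
/-- **The sparse large sieve.** -/
theorem sparse (Z g j : ℕ) (S : Finset ℕ) (hS : S ⊆ Icc 1 Z) (B : ℝ)
    (hB : ∀ N : ℕ, 1 ≤ N → N ≤ Z → (N.divisors.card : ℝ) ≤ B) :
    ∑ f ∈ Icc 1 j, ((f : ℝ) / (Nat.totient f : ℝ)) *
      ∑ χ ∈ (univ : Finset (DirichletCharacter ℂ f)).filter (fun χ => χ.IsPrimitive),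
        ‖A Z (res g (ind S)) f χ‖ ^ 2 ≤
      (j : ℝ) ^ 2 * S.card + j * B * (S.card : ℝ) ^ 2 := by
  set D : ℕ → ℕ → ℕ → Prop := fun f m n => (f : ℤ) ∣ (m : ℤ) - n with hD
  have h1 : ∀ f ∈ Icc 1 j, ((f : ℝ) / (Nat.totient f : ℝ)) *
      ∑ χ ∈ (univ : Finset (DirichletCharacter ℂ f)).filter (fun χ => χ.IsPrimitive),
        ‖A Z (res g (ind S)) f χ‖ ^ 2 ≤ ∑ p ∈ S ×ˢ S, if D f p.1 p.2 then (f : ℝ) else 0 := by
    intro f hf
    rw [mem_Icc] at hf
    have : NeZero f := ⟨by omega⟩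
    have h0 : (0 : ℝ) < (Nat.totient f : ℝ) := by
      have := Nat.totient_pos.mpr (NeZero.pos f)
      positivity
    have h2 : ∑ χ ∈ (univ : Finset (DirichletCharacter ℂ f)).filter (fun χ => χ.IsPrimitive),
        ‖A Z (res g (ind S)) f χ‖ ^ 2 ≤ ∑ χ : DirichletCharacter ℂ f,
        ‖∑ n ∈ S.filter (fun n => n.Coprime g), χ (n : ZMod f)‖ ^ 2 := by
      simp_rw [A_ind Z g f S hS]
      exact sum_le_sum_of_subset_of_nonneg (filter_subset _ _) (fun _ _ _ => by positivity)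
    have h3 := h2.trans (all_chars f (S.filter (fun n => n.Coprime g)))
    have h4 : ((((S.filter (fun n => n.Coprime g)) ×ˢ (S.filter (fun n => n.Coprime g))).filter
        (fun p : ℕ × ℕ => (p.1 : ZMod f) = (p.2 : ZMod f))).card : ℝ) ≤
        (((S ×ˢ S).filter (fun p : ℕ × ℕ => D f p.1 p.2)).card : ℝ) := by
      have : ((S.filter (fun n => n.Coprime g)) ×ˢ (S.filter (fun n => n.Coprime g))).filter
        (fun p : ℕ × ℕ => (p.1 : ZMod f) = (p.2 : ZMod f)) ⊆
        (S ×ˢ S).filter (fun p : ℕ × ℕ => D f p.1 p.2) := by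
        intro p hp
        simp only [mem_filter, mem_product] at hp ⊢
        refine ⟨⟨hp.1.1.1, hp.1.2.1⟩, ?_⟩
        rw [hD]
        simp only
        rw [← ZMod.intCast_zmod_eq_zero_iff_dvd]
        push_cast
        rw [hp.2, sub_self]
      exact_mod_cast card_le_card this
    calc ((f : ℝ) / (Nat.totient f : ℝ)) *
        ∑ χ ∈ (univ : Finset (DirichletCharacter ℂ f)).filter (fun χ => χ.IsPrimitive),
        ‖A Z (res g (ind S)) f χ‖ ^ 2 ≤ ((f : ℝ) / (Nat.totient f : ℝ)) *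
        ((Nat.totient f : ℝ) * (((S ×ˢ S).filter (fun p : ℕ × ℕ => D f p.1 p.2)).card : ℝ)) := by
          apply mul_le_mul_of_nonneg_left _ (by positivity)
          exact h3.trans (mul_le_mul_of_nonneg_left h4 h0.le)
      _ = (((S ×ˢ S).filter (fun p : ℕ × ℕ => D f p.1 p.2)).card : ℝ) * f := by
          field_simp
      _ = ∑ p ∈ S ×ˢ S, if D f p.1 p.2 then (f : ℝ) else 0 := by
          rw [← sum_filter, sum_const, nsmul_eq_mul]
  refine (sum_le_sum h1).trans ?_
  rw [sum_comm]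
  have hj0 : (0 : ℝ) ≤ j := Nat.cast_nonneg _
  have h5 : ∀ p ∈ S ×ˢ S, ∑ f ∈ Icc 1 j, (if D f p.1 p.2 then (f : ℝ) else 0) ≤
      (if p.1 = p.2 then (j : ℝ) ^ 2 else 0) + j * B := by
    intro p hp
    rw [mem_product] at hp
    have hp1 := mem_Icc.1 (hS hp.1)
    have hp2 := mem_Icc.1 (hS hp.2)
    have hB0 : 0 ≤ B := (Nat.cast_nonneg _).trans (hB p.1 hp1.1 hp1.2)
    split_ifs with h
    · have : ∑ f ∈ Icc 1 j, (if D f p.1 p.2 then (f : ℝ) else 0) ≤ ∑ f ∈ Icc 1 j, (j : ℝ) := by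
        apply sum_le_sum
        intro f hf
        rw [mem_Icc] at hf
        split_ifs
        · exact_mod_cast hf.2
        · exact hj0
      rw [sum_const, Nat.card_Icc, Nat.add_sub_cancel, nsmul_eq_mul] at this
      nlinarith [mul_nonneg hj0 hB0]
    · rw [zero_add, ← sum_filter]
      set N : ℕ := ((p.1 : ℤ) - p.2).natAbs with hN
      have hN1 : 1 ≤ N := by omega
      have hNZ : N ≤ Z := by omega
      have hsub : (Icc 1 j).filter (fun f => D f p.1 p.2) ⊆ N.divisors := by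
        intro f hf
        rw [mem_filter] at hf
        rw [Nat.mem_divisors]
        refine ⟨?_, by omega⟩
        rw [hN, ← Int.natCast_dvd]
        exact hf.2
      calc ∑ f ∈ (Icc 1 j).filter (fun f => D f p.1 p.2), (f : ℝ) ≤
          ∑ f ∈ (Icc 1 j).filter (fun f => D f p.1 p.2), (j : ℝ) := by
            apply sum_le_sum
            intro f hf
            rw [mem_filter, mem_Icc] at hf
            exact_mod_cast hf.1.2
        _ = ((Icc 1 j).filter (fun f => D f p.1 p.2)).card * j := by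
            rw [sum_const, nsmul_eq_mul]
        _ ≤ B * j := by
            apply mul_le_mul_of_nonneg_right _ hj0
            refine le_trans ?_ (hB N hN1 hNZ)
            exact_mod_cast card_le_card hsub
        _ = j * B := mul_comm _ _
  refine (sum_le_sum h5).trans ?_
  rw [sum_add_distrib, sum_const, card_product, nsmul_eq_mul]
  have h6 : ∑ p ∈ S ×ˢ S, (if p.1 = p.2 then (j : ℝ) ^ 2 else 0) = (j : ℝ) ^ 2 * S.card := by
    rw [sum_product]
    simp only
    rw [sum_congr rfl (fun x hx => by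
      rw [sum_ite_eq S x (fun _ => (j : ℝ) ^ 2), if_pos hx] :
      ∀ x ∈ S, ∑ y ∈ S, (if x = y then (j : ℝ) ^ 2 else 0) = (j : ℝ) ^ 2)]
    rw [sum_const, nsmul_eq_mul, mul_comm]
  rw [h6]
  push_cast
  apply le_of_eq
  ring

end Pool.Agent.K3h19.RV
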