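import Pool.Agent.K3h19.RV.Dual

/-! The sparse large sieve for bilinear sums. -/

set_option autoImplicit false

open Finset

namespace Pool.Agent.K3h19.RV

open Pool.Agent.Y882
open Pool.Agent.Helper112 Pool.Agent.Helper112.BLB Pool.Agent.Helper112.MLS

theorem P_sparse (X Z g j : ℕ) (α : ℕ → ℝ) (S : Finset ℕ) (hS : S ⊆ Icc 1 Z) (B : ℝ) (hB0 : 0 ≤ B)
    (hB : ∀ N : ℕ, 1 ≤ N → N ≤ Z → (N.divisors.card : ℝ) ≤ B) :
    ∑ f ∈ Icc 1 j, ((f : ℝ) / (Nat.totient f : ℝ)) * P X Z (res g α) (res g (ind S)) f ≤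
      3 * (Real.sqrt X + j) * Real.sqrt (∑ b ∈ Icc 1 X, α b ^ 2) *
        (j * Real.sqrt S.card + Real.sqrt j * Real.sqrt B * S.card) := by
  classical
  have hA := mult_large_sieve X j (fun b => ((res g α b : ℝ) : ℂ))
  have hSp := sparse Z g j S hS B hB
  simp only [Complex.norm_real, Real.norm_eq_abs, sq_abs] at hA
  set SA := ∑ f ∈ Icc 1 j, ((f : ℝ) / (Nat.totient f : ℝ)) *
      ∑ χ ∈ (univ : Finset (DirichletCharacter ℂ f)).filter (fun χ => χ.IsPrimitive),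
        ‖∑ n ∈ Icc 1 X, ((res g α n : ℝ) : ℂ) * χ (n : ZMod f)‖ ^ 2 with hSA
  set SB := ∑ f ∈ Icc 1 j, ((f : ℝ) / (Nat.totient f : ℝ)) *
      ∑ χ ∈ (univ : Finset (DirichletCharacter ℂ f)).filter (fun χ => χ.IsPrimitive),
        ‖A Z (res g (ind S)) f χ‖ ^ 2 with hSB
  have hSA' : SA = ∑ f ∈ Icc 1 j, ∑ χ ∈ (univ : Finset (DirichletCharacter ℂ f)).filter
      (fun χ => χ.IsPrimitive), (Real.sqrt ((f : ℝ) / (Nat.totient f : ℝ)) * ‖A X (res g α) f χ‖) ^ 2 := by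
    rw [hSA]
    apply sum_congr rfl; intro f _
    rw [mul_sum]
    apply sum_congr rfl; intro χ _
    rw [mul_pow, Real.sq_sqrt (by positivity)]
    rfl
  have hSB' : SB = ∑ f ∈ Icc 1 j, ∑ χ ∈ (univ : Finset (DirichletCharacter ℂ f)).filter
      (fun χ => χ.IsPrimitive),
      (Real.sqrt ((f : ℝ) / (Nat.totient f : ℝ)) * ‖A Z (res g (ind S)) f χ‖) ^ 2 := by
    rw [hSB]
    apply sum_congr rfl; intro f _
    rw [mul_sum]
    apply sum_congr rfl; intro χ _
    rw [mul_pow, Real.sq_sqrt (by positivity)]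
  have h1 : ∑ f ∈ Icc 1 j, ((f : ℝ) / (Nat.totient f : ℝ)) * P X Z (res g α) (res g (ind S)) f =
      ∑ f ∈ Icc 1 j, ∑ χ ∈ (univ : Finset (DirichletCharacter ℂ f)).filter
      (fun χ => χ.IsPrimitive), (Real.sqrt ((f : ℝ) / (Nat.totient f : ℝ)) * ‖A X (res g α) f χ‖) *
        (Real.sqrt ((f : ℝ) / (Nat.totient f : ℝ)) * ‖A Z (res g (ind S)) f χ‖) := by
    apply sum_congr rfl; intro f _
    unfold P
    rw [mul_sum]
    apply sum_congr rfl; intro χ _
    have : ((f : ℝ) / (Nat.totient f : ℝ)) = Real.sqrt ((f : ℝ) / (Nat.totient f : ℝ)) *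
      Real.sqrt ((f : ℝ) / (Nat.totient f : ℝ)) := (Real.mul_self_sqrt (by positivity)).symm
    conv_lhs => rw [this]
    ring
  have h2 : ∑ f ∈ Icc 1 j, ((f : ℝ) / (Nat.totient f : ℝ)) * P X Z (res g α) (res g (ind S)) f ≤
      Real.sqrt SA * Real.sqrt SB := by
    rw [h1, hSA', hSB', sum_sigma', sum_sigma', sum_sigma']
    exact Real.sum_mul_le_sqrt_mul_sqrt _ _ _
  refine h2.trans ?_
  have hX : Real.sqrt ((X : ℝ) + (j : ℝ) ^ 2) ≤ Real.sqrt X + j := by
    rw [Real.sqrt_le_left (by positivity)]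
    have := Real.sq_sqrt (Nat.cast_nonneg (α := ℝ) X)
    have h3 := Real.sqrt_nonneg (X : ℝ)
    have h4 := Nat.cast_nonneg (α := ℝ) j
    nlinarith
  have h6 : Real.sqrt 6 ≤ 3 := by
    rw [Real.sqrt_le_left (by norm_num)]
    norm_num
  have hA2 : Real.sqrt SA ≤ 3 * (Real.sqrt X + j) *
      Real.sqrt (∑ b ∈ Icc 1 X, α b ^ 2) := by
    refine (Real.sqrt_le_sqrt hA).trans ?_
    rw [Real.sqrt_mul (by positivity), Real.sqrt_mul (by positivity)]
    have := res_sq X g α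
    gcongr
  have hB2 : Real.sqrt SB ≤ j * Real.sqrt S.card + Real.sqrt j * Real.sqrt B * S.card := by
    refine (Real.sqrt_le_sqrt hSp).trans ?_
    rw [Real.sqrt_le_left (by positivity)]
    have e1 := Real.sq_sqrt (Nat.cast_nonneg (α := ℝ) S.card)
    have e2 := Real.sq_sqrt (Nat.cast_nonneg (α := ℝ) j)
    have e3 := Real.sq_sqrt hB0
    have e4 : (j : ℝ) ^ 2 * S.card = (j * Real.sqrt S.card) ^ 2 := by rw [mul_pow, e1]
    have e5 : (j : ℝ) * B * (S.card : ℝ) ^ 2 = (Real.sqrt j * Real.sqrt B * S.card) ^ 2 := by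
      rw [mul_pow, mul_pow, e2, e3]
    rw [e4, e5]
    have p1 : 0 ≤ (j : ℝ) * Real.sqrt S.card := by positivity
    have p2 : 0 ≤ Real.sqrt j * Real.sqrt B * S.card := by positivity
    nlinarith
  exact mul_le_mul hA2 hB2 (Real.sqrt_nonneg _) (by positivity)

theorem step_sparse (X Z g F0 F1 : ℕ) (α : ℕ → ℝ) (S : Finset ℕ) (hS : S ⊆ Icc 1 Z) (B : ℝ)
    (hB0 : 0 ≤ B) (hB : ∀ N : ℕ, 1 ≤ N → N ≤ Z → (N.divisors.card : ℝ) ≤ B)
    (h0 : 1 ≤ F0) (h1 : 1 ≤ F1) :
    ∑ f ∈ Icc F0 F1, (1 / (Nat.totient f : ℝ)) * P X Z (res g α) (res g (ind S)) f ≤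
      3 * (2 + Real.log F1) * Real.sqrt (∑ b ∈ Icc 1 X, α b ^ 2) *
        (Real.sqrt S.card * (Real.sqrt X + F1) +
          S.card * Real.sqrt B * (Real.sqrt X / Real.sqrt F0 + Real.sqrt F1)) := by
  have hlog : 0 ≤ Real.log F1 := Real.log_natCast_nonneg F1
  have hF0r : (1:ℝ) ≤ F0 := by exact_mod_cast h0
  have hF1r : (1:ℝ) ≤ F1 := by exact_mod_cast h1
  set a : ℝ := Real.sqrt (∑ b ∈ Icc 1 X, α b ^ 2) with ha
  set s : ℝ := Real.sqrt S.card with hs
  have ha0 : 0 ≤ a := Real.sqrt_nonneg _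
  have hs0 : 0 ≤ s := Real.sqrt_nonneg _
  set W : ℝ := 3 * a * (s * (Real.sqrt X + F1) +
          S.card * Real.sqrt B * (Real.sqrt X / Real.sqrt F0 + Real.sqrt F1)) with hW
  have hW0 : 0 ≤ W := by positivity
  rcases Nat.lt_or_ge F1 F0 with hlt | hge
  · rw [Icc_eq_empty (by omega), sum_empty]
    positivity
  set R : ℕ → ℝ := fun f => ((f : ℝ) / (Nat.totient f : ℝ)) * P X Z (res g α) (res g (ind S)) f
    with hR
  have hR0 : ∀ f, 0 ≤ R f := fun f => mul_nonneg (by positivity) (P_nonneg _ _ _ _ _)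
  have e1 : ∑ f ∈ Icc F0 F1, (1 / (Nat.totient f : ℝ)) * P X Z (res g α) (res g (ind S)) f =
      ∑ f ∈ Icc F0 F1, R f / f := by
    apply sum_congr rfl
    intro f hf
    rw [mem_Icc] at hf
    have : (f:ℝ) ≠ 0 := by
      have : 0 < f := by omega
      positivity
    rw [hR]
    field_simp
  rw [e1, abel R F0 F1 h0 (by omega)]
  have hSj : ∀ j ∈ Icc F0 F1, ∑ f ∈ Icc F0 j, R f ≤ j * W := by
    intro j hj
    rw [mem_Icc] at hj
    have hjr : (0 : ℝ) < j := by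
      have : 0 < j := by omega
      exact_mod_cast this
    have hj1 : (j : ℝ) ≤ F1 := by exact_mod_cast hj.2
    have hj0 : (F0 : ℝ) ≤ j := by exact_mod_cast hj.1
    refine le_trans (sum_le_sum_of_subset_of_nonneg (Icc_subset_Icc_left h0)
      fun f _ _ => hR0 f) ?_
    refine (P_sparse X Z g j α S hS B hB0 hB).trans ?_
    rw [← ha, ← hs, hW]
    have hsj : Real.sqrt j * Real.sqrt j = j := Real.mul_self_sqrt hjr.le
    have hsj0 : 0 < Real.sqrt j := Real.sqrt_pos.2 hjr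
    have hsF0 : 0 < Real.sqrt F0 := Real.sqrt_pos.2 (by linarith)
    have k1 : (Real.sqrt X + j) * (j * s) ≤ j * (s * (Real.sqrt X + F1)) := by
      calc (Real.sqrt X + j) * (j * s) = (j * s) * (Real.sqrt X + j) := by ring
        _ ≤ (j * s) * (Real.sqrt X + F1) := by gcongr
        _ = _ := by ring
    have k2 : (Real.sqrt X + j) * Real.sqrt j ≤
        j * (Real.sqrt X / Real.sqrt F0 + Real.sqrt F1) := by
      have e2 : (Real.sqrt X + j) * Real.sqrt j =
          j * (Real.sqrt X / Real.sqrt j + Real.sqrt j) := by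
        rw [mul_add, add_mul, mul_div_assoc', eq_comm]
        congr 1
        rw [div_eq_iff hsj0.ne']
        calc (j : ℝ) * Real.sqrt X = Real.sqrt X * (Real.sqrt j * Real.sqrt j) := by
              rw [hsj]; ring
          _ = _ := by ring
      rw [e2]
      apply mul_le_mul_of_nonneg_left _ hjr.le
      apply add_le_add
      · exact div_le_div_of_nonneg_left (Real.sqrt_nonneg _) hsF0 (Real.sqrt_le_sqrt hj0)
      · exact Real.sqrt_le_sqrt hj1
    calc 3 * (Real.sqrt X + j) * a * (j * s + Real.sqrt j * Real.sqrt B * S.card) =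
        3 * a * ((Real.sqrt X + j) * (j * s) +
          S.card * Real.sqrt B * ((Real.sqrt X + j) * Real.sqrt j)) := by ring
      _ ≤ 3 * a * (j * (s * (Real.sqrt X + F1)) +
          S.card * Real.sqrt B * (j * (Real.sqrt X / Real.sqrt F0 + Real.sqrt F1))) := by
          gcongr
      _ = _ := by ring
  have t1 : (∑ f ∈ Icc F0 F1, R f) / ((F1:ℝ) + 1) ≤ W := by
    rw [div_le_iff₀ (by positivity)]
    refine (hSj F1 (by rw [mem_Icc]; omega)).trans ?_
    nlinarith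
  have t2 : ∀ j ∈ Icc F0 F1, (∑ f ∈ Icc F0 j, R f) / ((j:ℝ) * (j + 1)) ≤ W * (1 / j) := by
    intro j hj
    have hj' := mem_Icc.1 hj
    have hj0 : (0:ℝ) < j := by
      have : 0 < j := by omega
      positivity
    rw [div_le_iff₀ (by positivity)]
    refine (hSj j hj).trans ?_
    have e2 : W * (1 / (j : ℝ)) * (j * (j + 1)) = (j + 1) * W := by
      field_simp
    rw [e2]
    nlinarith
  have t4 : ∑ j ∈ Icc F0 F1, (1 / (j:ℝ)) ≤ 1 + Real.log F1 := by
    have h2 := harmonic_le_one_add_log F1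
    rw [harmonic_eq_sum_Icc] at h2
    push_cast at h2
    refine le_trans ?_ h2
    simp_rw [one_div]
    exact sum_le_sum_of_subset_of_nonneg (Icc_subset_Icc_left h0) fun f _ _ => by positivity
  have t6 : ∑ j ∈ Icc F0 F1, (∑ f ∈ Icc F0 j, R f) / ((j:ℝ) * (j + 1)) ≤
      W * (1 + Real.log F1) := by
    refine (sum_le_sum t2).trans ?_
    rw [← mul_sum]
    exact mul_le_mul_of_nonneg_left t4 hW0
  refine (add_le_add t1 t6).trans (le_of_eq ?_)
  rw [hW]
  ring

end Pool.Agent.K3h19.RV
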