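import Pool.Agent.Y882.GX.Blk2
import Pool.Agent.K3h19.RV.Err

/-! Almost primes `n - p` with very few exceptions, weighted sieve: one dyadic block. -/

set_option autoImplicit false

open Finset Filter Topology

namespace Pool.Agent.K3h19.RV

open Pool.Agent.Y882
open Pool.Agent.Y882.KW
open Pool.Agent.Y882.GW
open Pool.Agent.H410R2
open Pool.Agent.Helper112 Pool.Agent.Helper112.BLB
open Pool.Agent.H732R2.B2 (Sc)

set_option maxHeartbeats 8000000 in
theorem dyadic1 (θ τ ζ υ aw bw ε : ℝ) (hθ0 : 0 < θ) (hθ1 : θ ≤ 1) (hζ0 : 0 < ζ)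
    (h2 : 2 * ζ < τ) (h4 : τ ≤ 4 * ζ) (hθτ : θ / 2 ≤ τ) (hτθ : τ < θ) (hζυ : ζ ≤ υ) (hυτ : υ < τ)
    (ha : 0 ≤ aw) (hb : 0 ≤ bw) (hab : bw * υ ≤ aw)
    (hJ0 : ∫ x in ζ..υ, (aw - bw * x) / (τ - x) / x < Real.log (τ / ζ - 1) / τ)
    (hε : 0 < ε) : ∃ δ : ℝ, 0 < δ ∧ ∃ Y0 : ℕ, ∀ Y : ℕ, Y0 ≤ Y → ∀ x : ℝ, (Y : ℝ) ^ θ ≤ x →
      x ≤ Y → ∀ S : Finset ℕ, (∀ n ∈ S, Y < n ∧ n ≤ 2 * Y ∧ Even n ∧
        (GW.cnt x (WW Y ζ υ aw bw) n : ℝ) < δ * x / Real.log Y ^ 2 * sgs n) →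
      (S.card : ℝ) ≤ (Y : ℝ) ^ (2 * τ - θ + ε) := by
  classical
  -- parameters
  have hτ : τ < 1 := by linarith
  set κ : ℝ := min (ε / 32) ((θ - τ) / 4) with hκ
  have hκ0 : 0 < κ := lt_min (by linarith) (by linarith)
  have hκε : κ ≤ ε / 32 := min_le_left _ _
  have hκu : κ ≤ (θ - τ) / 4 := min_le_right _ _
  set β : ℝ := min (θ / 16) ((θ - τ) / 4) with hβ
  have hβ0 : 0 < β := lt_min (by linarith) (by linarith)
  have hβθ : β ≤ θ / 16 := min_le_left _ _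
  have hβτ : β ≤ (θ - τ) / 4 := min_le_right _ _
  set τ' : ℝ := τ + κ with hτ'
  have hτ'1 : τ' ≤ 1 := by rw [hτ']; linarith
  set δ' : ℝ := min (ε / 16) (1 / 4) with hδ'
  have hδ'0 : 0 < δ' := lt_min (by linarith) (by norm_num)
  have hδ'ε : δ' ≤ ε / 16 := min_le_left _ _
  have hδ'4 : δ' ≤ 1 / 4 := min_le_right _ _
  obtain ⟨c0, hc0, Y1, HW⟩ := GW.wts τ ζ υ aw bw τ' hζ0 h2 h4 hτ.le hζυ hυτ ha hb hab hJ0
    (by linarith)
  obtain ⟨CS, hCS, HSc⟩ := Pool.Agent.H732R2.B2.Sc_bound 1 zero_le_one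
  obtain ⟨Cd, hCd, HCd⟩ := Pool.Agent.Helper112.divisor_bound (θ / 4) (by linarith)
  obtain ⟨Ce, hCe, HCe⟩ := Pool.Agent.Helper112.divisor_bound β hβ0
  obtain ⟨X1, HBV⟩ := eventually_atTop.1 (bv_al bv_true δ' hδ'0 5)
  obtain ⟨X2, HM⟩ := eventually_atTop.1 mass
  set C7 : ℝ := 20 * CS * (4 / θ) ^ 5 with hC7
  set K9 : ℝ := 3000 * CS / c0 with hK9
  have hK90 : 0 < K9 := by rw [hK9]; positivity
  have ev0 : ∀ᶠ Y : ℕ in atTop, max (max X1 X2) 16 ≤ (Y : ℝ) ^ θ :=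
    tendsto_natCast_atTop_atTop.eventually ((tendsto_rpow_atTop hθ0).eventually_ge_atTop _)
  have ev2 : ∀ᶠ Y : ℕ in atTop, max (200 * C7 / c0) 2 ≤ Real.log Y :=
    tendsto_natCast_atTop_atTop.eventually (Real.tendsto_log_atTop.eventually_ge_atTop _)
  have ev3 := polylog (400 / c0) 2 (θ / 2) (by linarith)
  have ev4 := polylog (400 / c0 * (10 * CS)) 7 (θ / 2) (by linarith)
  have ev5 := polylog (400 / c0 * (40 * Cd)) 5 (θ / 2) (by linarith)
  have ev6 := polylog (2000 * CS / c0) 7 (θ / 2) (by linarith)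
  have ev7 := polylog (3 * K9) 6 (ε / 8) (by linarith)
  have ev8 := polylog (8 * K9 * √(2 * Ce)) 6 (θ / 16) (by linarith)
  have ev9 := polylog (2 * K9 * √(2 * Ce)) 6 ((θ - τ) / 4) (by linarith)
  obtain ⟨Y2, HY2⟩ := eventually_atTop.1 (ev0.and (ev2.and (ev3.and (ev4.and (ev5.and
    (ev6.and (ev7.and (ev8.and (ev9.and (eventually_ge_atTop 3))))))))))
  refine ⟨c0 / 100, by positivity, max Y1 Y2, ?_⟩
  intro Y hY x hYx hxY S hS
  obtain ⟨f0, f2, f3, f4, f5, f6, f7, g8, g9, f8⟩ := HY2 Y ((le_max_right _ _).trans hY)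
  obtain ⟨c, w1, w2, w3, w4⟩ := HW Y ((le_max_left _ _).trans hY)
  set L : ℝ := Real.log Y with hL
  have hYr : (3 : ℝ) ≤ Y := by exact_mod_cast f8
  have hY1 : (1 : ℝ) ≤ Y := by linarith
  have hY0 : (0 : ℝ) < Y := by linarith
  have hL2 : 2 ≤ L := (le_max_right _ _).trans f2
  have hL0 : 0 < L := by linarith
  have hx16 : 16 ≤ x := ((le_max_right _ _).trans f0).trans hYx
  have hxX1 : X1 ≤ x := (((le_max_left _ _).trans (le_max_left _ _)).trans f0).trans hYx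
  have hxX2 : X2 ≤ x := (((le_max_right _ _).trans (le_max_left _ _)).trans f0).trans hYx
  have hx0 : 0 < x := by linarith
  have hx1 : 1 ≤ x := by linarith
  have hlx : Real.log x ≤ L := Real.log_le_log hx0 hxY
  have hlx0 : 0 ≤ Real.log x := Real.log_nonneg hx1
  set X := ⌊x⌋₊ with hX
  have hXx : (X : ℝ) ≤ x := Nat.floor_le hx0.le
  have hXY : X ≤ Y := by exact_mod_cast hXx.trans hxY
  set M := ∑ m ∈ Icc 1 X, al x m with hMdef
  have hM : x / 20 ≤ M := HM x hxX2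
  -- the levels
  set F0 : ℕ := ⌊(x / 2) ^ (1 / 2 - δ')⌋₊ with hF0
  set D0 : ℕ := ⌊(Y : ℝ) ^ τ'⌋₊ with hD0
  set D : ℕ := max D0 F0 with hD
  have hF0D : F0 ≤ D := le_max_right _ _
  have hF01 : 1 ≤ F0 := by
    apply Nat.le_floor
    push_cast
    exact Real.one_le_rpow (by linarith) (by linarith)
  have hF0le : (F0 : ℝ) ≤ (x / 2) ^ (1 / 2 - δ') := Nat.floor_le (by positivity)
  have hF0x : (F0 : ℝ) ≤ √x := by
    rw [Real.sqrt_eq_rpow]
    refine hF0le.trans ?_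
    calc (x / 2) ^ (1 / 2 - δ') ≤ (x / 2) ^ ((1 : ℝ) / 2) :=
          Real.rpow_le_rpow_of_exponent_le (by linarith) (by linarith)
      _ ≤ x ^ ((1 : ℝ) / 2) := Real.rpow_le_rpow (by positivity) (by linarith) (by norm_num)
  have hD0le : (D0 : ℝ) ≤ (Y : ℝ) ^ τ' := Nat.floor_le (by positivity)
  have hsxY : √x ≤ (Y : ℝ) ^ ((1 : ℝ) / 2) := by
    rw [Real.sqrt_eq_rpow]
    exact Real.rpow_le_rpow hx0.le hxY (by norm_num)
  have hDY : (D : ℝ) ≤ Y := by
    rw [hD]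
    push_cast
    apply max_le
    · refine hD0le.trans ?_
      calc (Y : ℝ) ^ τ' ≤ (Y : ℝ) ^ (1 : ℝ) := Real.rpow_le_rpow_of_exponent_le hY1 hτ'1
        _ = Y := Real.rpow_one _
    · refine hF0x.trans (hsxY.trans ?_)
      calc (Y : ℝ) ^ ((1 : ℝ) / 2) ≤ (Y : ℝ) ^ (1 : ℝ) :=
            Real.rpow_le_rpow_of_exponent_le hY1 (by norm_num)
        _ = Y := Real.rpow_one _
  have hD1 : 1 ≤ D := hF01.trans hF0D
  have hlD : Real.log D ≤ L := Real.log_le_log (by exact_mod_cast hD1) hDY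
  have hlD0 : 0 ≤ Real.log D := Real.log_natCast_nonneg D
  -- the sum of 1 / φ
  have hSc : Sc 1 D ≤ CS * L ^ 2 := by
    have h1 : Sc 1 D ≤ Sc 1 (max D 3) :=
      Pool.Agent.H732R2.B2.Sc_mono 1 zero_le_one (le_max_left _ _)
    refine h1.trans ((HSc _ (le_max_right _ _)).trans ?_)
    apply mul_le_mul_of_nonneg_left _ hCS.le
    have h2 : (2 * (1 : ℝ)) = ((2 : ℕ) : ℝ) := by norm_num
    rw [h2, Real.rpow_natCast]
    apply pow_le_pow_left₀ (Real.log_natCast_nonneg _)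
    apply Real.log_le_log
    · have : 0 < max D 3 := lt_of_lt_of_le (by norm_num) (le_max_right _ _)
      exact_mod_cast this
    · have : max D 3 ≤ Y := max_le (by exact_mod_cast hDY) f8
      exact_mod_cast this
  have hSc0 : 0 ≤ Sc 1 D := by unfold Sc; positivity
  -- bounds for the noncoprime terms
  set R : ℝ := 2 * L ^ 3 with hR
  have hRb : ∀ g : ℕ, 1 ≤ g → g ≤ D →
      ∑ b ∈ (Icc 1 X).filter (fun b => ¬ b.Coprime g), |al x b| ≤ R := by
    intro g hg1 hgD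
    refine (al_noncop x hx1 g hg1).trans ?_
    have h1 : Real.log g ≤ L := (Real.log_le_log (by exact_mod_cast hg1)
      (by exact_mod_cast hgD)).trans hlD
    have h2 : 0 ≤ Real.log g := Real.log_natCast_nonneg g
    calc 2 * Real.log g * Real.log x ^ 2 ≤ 2 * L * L ^ 2 := by gcongr
      _ = R := by rw [hR]; ring
  set R' : ℝ := 4 * L ^ 3 with hR'
  have hRb' : ∀ n ∈ S, ∑ b ∈ (Icc 1 X).filter (fun b => ¬ b.Coprime n), |al x b| ≤ R' := by
    intro n hn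
    obtain ⟨h1, h2, -, -⟩ := hS n hn
    refine (al_noncop x hx1 n (by omega)).trans ?_
    have h3 : Real.log n ≤ 2 * L := by
      have h4 : (n : ℝ) ≤ (Y : ℝ) ^ 2 := by
        have : n ≤ Y ^ 2 := by
          calc n ≤ 2 * Y := h2
            _ ≤ Y * Y := Nat.mul_le_mul_right _ (by omega)
            _ = Y ^ 2 := (sq Y).symm
        exact_mod_cast this
      have h5 := Real.log_le_log (by
        have : 0 < n := by omega
        exact_mod_cast this) h4
      rw [Real.log_pow] at h5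
      push_cast at h5
      exact h5
    have h4 : 0 ≤ Real.log n := Real.log_natCast_nonneg n
    calc 2 * Real.log n * Real.log x ^ 2 ≤ 2 * (2 * L) * L ^ 2 := by gcongr
      _ = R' := by rw [hR']; ring
  set B : ℝ := Cd * (2 * (Y : ℝ) ^ (θ / 4)) with hB
  have hBb : ∀ n ∈ S, ∀ N : ℕ, 1 ≤ N → N ≤ n → (N.divisors.card : ℝ) ≤ B := by
    intro n hn N hN1 hNn
    obtain ⟨h1, h2, -, -⟩ := hS n hn
    refine (HCd N hN1).trans ?_
    rw [hB]
    apply mul_le_mul_of_nonneg_left _ hCd.le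
    have h3 : (N : ℝ) ≤ 2 * Y := by
      have : N ≤ 2 * Y := hNn.trans h2
      exact_mod_cast this
    calc (N : ℝ) ^ (θ / 4) ≤ (2 * (Y : ℝ)) ^ (θ / 4) :=
          Real.rpow_le_rpow (by positivity) h3 (by linarith)
      _ = 2 ^ (θ / 4) * (Y : ℝ) ^ (θ / 4) := Real.mul_rpow (by norm_num) hY0.le
      _ ≤ 2 * (Y : ℝ) ^ (θ / 4) := by
          apply mul_le_mul_of_nonneg_right _ (by positivity)
          calc (2 : ℝ) ^ (θ / 4) ≤ 2 ^ (1 : ℝ) :=
                Real.rpow_le_rpow_of_exponent_le (by norm_num) (by linarith)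
            _ = 2 := Real.rpow_one _
  -- sizes
  set G : ℝ := x / L with hG
  have hG0 : 0 < G := by positivity
  have hsx : √x * √x = x := Real.mul_self_sqrt hx0.le
  have hsx0 : 0 < √x := Real.sqrt_pos.2 hx0
  have hYs : (Y : ℝ) ^ (θ / 2) ≤ √x := by
    rw [Real.sqrt_eq_rpow]
    calc (Y : ℝ) ^ (θ / 2) = ((Y : ℝ) ^ θ) ^ ((1 : ℝ) / 2) := by
          rw [← Real.rpow_mul hY0.le]; congr 1; ring
      _ ≤ x ^ ((1 : ℝ) / 2) := Real.rpow_le_rpow (by positivity) hYx (by norm_num)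
  have hYhalf : (Y : ℝ) ^ (θ / 4) ≤ √x := by
    refine le_trans ?_ hYs
    exact Real.rpow_le_rpow_of_exponent_le hY1 (by linarith)
  have hYs1 : (1 : ℝ) ≤ √x := by
    rw [Real.one_le_sqrt]; exact hx1
  -- (b)
  have eb : 2 * √x * L ≤ c0 / 200 * G := by
    have h1 : 400 / c0 * L ^ 2 ≤ √x := f3.trans hYs
    rw [hG, mul_div_assoc', le_div_iff₀ hL0]
    have h2 : 400 / c0 * L ^ 2 * √x ≤ √x * √x := mul_le_mul_of_nonneg_right h1 hsx0.le
    rw [hsx] at h2
    have h3 : 2 * √x * L * L = c0 / 200 * (400 / c0 * L ^ 2 * √x) := by field_simp; ring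
    rw [h3]
    exact mul_le_mul_of_nonneg_left h2 (by positivity)
  -- (a)
  have ea : 5 * L * (Sc 1 D * R + B * R') ≤ c0 / 200 * G := by
    have h1 : 400 / c0 * (10 * CS) * L ^ 7 ≤ √x := f4.trans hYs
    have h2 : 400 / c0 * (40 * Cd) * L ^ 5 ≤ √x := f5.trans hYs
    have h3 : 5 * L * (Sc 1 D * R + B * R') ≤ 10 * CS * L ^ 6 + 40 * Cd * L ^ 4 * √x := by
      rw [hR, hR', hB]
      calc 5 * L * (Sc 1 D * (2 * L ^ 3) + Cd * (2 * (Y : ℝ) ^ (θ / 4)) * (4 * L ^ 3)) ≤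
          5 * L * (CS * L ^ 2 * (2 * L ^ 3) + Cd * (2 * √x) * (4 * L ^ 3)) := by gcongr
        _ = _ := by ring
    refine h3.trans ?_
    rw [hG, mul_div_assoc', le_div_iff₀ hL0]
    have h4 : 400 / c0 * (10 * CS) * L ^ 7 ≤ x := by
      calc _ ≤ √x := h1
        _ = 1 * √x := (one_mul _).symm
        _ ≤ √x * √x := mul_le_mul_of_nonneg_right hYs1 hsx0.le
        _ = x := hsx
    have h5 : 400 / c0 * (40 * Cd) * L ^ 5 * √x ≤ √x * √x := mul_le_mul_of_nonneg_right h2 hsx0.le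
    rw [hsx] at h5
    have h6 : (10 * CS * L ^ 6 + 40 * Cd * L ^ 4 * √x) * L =
        c0 / 400 * (400 / c0 * (10 * CS) * L ^ 7) +
        c0 / 400 * (400 / c0 * (40 * Cd) * L ^ 5 * √x) := by field_simp
    rw [h6]
    have h7 := mul_le_mul_of_nonneg_left h4 (show 0 ≤ c0 / 400 by positivity)
    have h8 := mul_le_mul_of_nonneg_left h5 (show 0 ≤ c0 / 400 by positivity)
    linarith
  -- (c)
  set BVs : ℝ := ∑ f ∈ Icc 2 F0, (1 / (Nat.totient f : ℝ)) * PA X (al x) f with hBVs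
  have hBV := HBV x hxX1 F0 hF0le (by linarith)
  have hlx2 : θ / 4 * L ≤ Real.log (x / 2) := by
    have h1 : (Y : ℝ) ^ (θ / 4) ≤ x / 2 := by
      have h2 : (Y : ℝ) ^ (θ / 4) ≤ √x := hYhalf
      have h3 : √x ≤ x / 2 := by
        have h4 : 2 ≤ √x := by
          rw [Real.le_sqrt' (by norm_num)]; linarith
        have h4' := mul_le_mul_of_nonneg_right h4 hsx0.le
        rw [hsx] at h4'
        linarith
      linarith
    have h5 := Real.log_le_log (by positivity) h1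
    rw [Real.log_rpow hY0] at h5
    exact h5
  have ec : 5 * L * (Sc 1 D * (BVs + F0 * R)) ≤ c0 / 100 * G := by
    have h1 : BVs ≤ 4 * x * ((4 / θ) ^ 5 / L ^ 5) := by
      refine hBV.trans ?_
      have h2 : (θ / 4 * L) ^ 5 ≤ Real.log (x / 2) ^ 5 := pow_le_pow_left₀ (by positivity) hlx2 5
      calc 4 * x / Real.log (x / 2) ^ 5 ≤ 4 * x / (θ / 4 * L) ^ 5 :=
            div_le_div_of_nonneg_left (by positivity) (by positivity) h2
        _ = _ := by
            rw [mul_pow, div_pow, div_pow]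
            field_simp
    have hBVs0 : 0 ≤ BVs := by
      rw [hBVs]
      apply sum_nonneg
      intro f _
      unfold PA
      positivity
    have h2 : 5 * L * (Sc 1 D * BVs) ≤ C7 * x / L ^ 2 := by
      calc 5 * L * (Sc 1 D * BVs) ≤ 5 * L * (CS * L ^ 2 * (4 * x * ((4 / θ) ^ 5 / L ^ 5))) := by
            gcongr
        _ = C7 * x / L ^ 2 := by
            rw [hC7]
            field_simp
            ring
    have h3 : C7 * x / L ^ 2 ≤ c0 / 200 * G := by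
      have h4 : 200 * C7 / c0 ≤ L := (le_max_left _ _).trans f2
      rw [div_le_iff₀ hc0] at h4
      rw [hG, mul_div_assoc', div_le_div_iff₀ (by positivity) hL0]
      have h5 : C7 ≤ c0 / 200 * L := by linarith
      calc C7 * x * L ≤ (c0 / 200 * L) * x * L := by gcongr
        _ = c0 / 200 * x * L ^ 2 := by ring
    have h4 : 5 * L * (Sc 1 D * (F0 * R)) ≤ c0 / 200 * G := by
      have h5 : 2000 * CS / c0 * L ^ 7 ≤ √x := f6.trans hYs
      have h6 : 5 * L * (Sc 1 D * (F0 * R)) ≤ 10 * CS * L ^ 6 * √x := by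
        rw [hR]
        calc 5 * L * (Sc 1 D * (F0 * (2 * L ^ 3))) ≤ 5 * L * (CS * L ^ 2 * (√x * (2 * L ^ 3))) := by
              gcongr
          _ = _ := by ring
      refine h6.trans ?_
      rw [hG, mul_div_assoc', le_div_iff₀ hL0]
      have h7 : 2000 * CS / c0 * L ^ 7 * √x ≤ √x * √x := mul_le_mul_of_nonneg_right h5 hsx0.le
      rw [hsx] at h7
      have h8 : 10 * CS * L ^ 6 * √x * L = c0 / 200 * (2000 * CS / c0 * L ^ 7 * √x) := by
        field_simp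
        ring
      rw [h8]
      exact mul_le_mul_of_nonneg_left h7 (by positivity)
    have h5 : 5 * L * (Sc 1 D * (BVs + F0 * R)) = 5 * L * (Sc 1 D * BVs) +
        5 * L * (Sc 1 D * (F0 * R)) := by ring
    rw [h5]
    linarith
  -- the large sieve part
  set Z : ℕ := 2 * Y with hZ
  have hSZ : S ⊆ Icc 1 Z := by
    intro n hn
    obtain ⟨h1, h2, -, -⟩ := hS n hn
    rw [mem_Icc]
    omega
  set B2 : ℝ := Ce * (2 * (Y : ℝ) ^ β) with hB2
  have hB20 : 0 ≤ B2 := by rw [hB2]; positivity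
  have hB2b : ∀ N : ℕ, 1 ≤ N → N ≤ Z → (N.divisors.card : ℝ) ≤ B2 := by
    intro N hN1 hNn
    refine (HCe N hN1).trans ?_
    rw [hB2]
    apply mul_le_mul_of_nonneg_left _ hCe.le
    have h3 : (N : ℝ) ≤ 2 * Y := by
      rw [hZ] at hNn
      exact_mod_cast hNn
    calc (N : ℝ) ^ β ≤ (2 * (Y : ℝ)) ^ β :=
          Real.rpow_le_rpow (by positivity) h3 hβ0.le
      _ = 2 ^ β * (Y : ℝ) ^ β := Real.mul_rpow (by norm_num) hY0.le
      _ ≤ 2 * (Y : ℝ) ^ β := by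
          apply mul_le_mul_of_nonneg_right _ (by positivity)
          calc (2 : ℝ) ^ β ≤ 2 ^ (1 : ℝ) :=
                Real.rpow_le_rpow_of_exponent_le (by norm_num) (by linarith)
            _ = 2 := Real.rpow_one _
  have hsB2 : √B2 = √(2 * Ce) * (Y : ℝ) ^ (β / 2) := by
    rw [hB2, show Ce * (2 * (Y : ℝ) ^ β) = (2 * Ce) * (Y : ℝ) ^ β by ring,
      Real.sqrt_mul (by positivity)]
    congr 1
    rw [Real.sqrt_eq_rpow, ← Real.rpow_mul hY0.le]
    congr 1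
    ring
  -- the square root of `F0` is large
  have hF0low : (Y : ℝ) ^ (θ / 8) / 3 ≤ √(F0 : ℝ) := by
    apply Real.le_sqrt_of_sq_le
    have h1 : (x / 2) ^ (1 / 2 - δ') < F0 + 1 := Nat.lt_floor_add_one _
    have h1' : (1 : ℝ) ≤ F0 := by exact_mod_cast hF01
    have h2' : (x / 2) ^ ((1 : ℝ) / 4) ≤ (x / 2) ^ (1 / 2 - δ') :=
      Real.rpow_le_rpow_of_exponent_le (by linarith) (by linarith)
    have h3' : (Y : ℝ) ^ (θ / 4) / 2 ≤ (x / 2) ^ ((1 : ℝ) / 4) := by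
      have h4' : ((Y : ℝ) ^ θ / 16) ^ ((1 : ℝ) / 4) ≤ (x / 2) ^ ((1 : ℝ) / 4) := by
        apply Real.rpow_le_rpow (by positivity) _ (by norm_num)
        linarith
      refine le_trans (le_of_eq ?_) h4'
      rw [Real.div_rpow (by positivity) (by norm_num), ← Real.rpow_mul hY0.le]
      congr 1
      · congr 1; ring
      · rw [show (16 : ℝ) = 2 ^ (4 : ℝ) by norm_num, ← Real.rpow_mul (by norm_num)]
        norm_num
    have e1 : ((Y : ℝ) ^ (θ / 8) / 3) ^ 2 = (Y : ℝ) ^ (θ / 4) / 9 := by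
      rw [div_pow, ← Real.rpow_natCast, ← Real.rpow_mul hY0.le]
      congr 1
      · congr 1; push_cast; ring
      · norm_num
    rw [e1]
    have : (0 : ℝ) ≤ (Y : ℝ) ^ (θ / 4) := by positivity
    linarith
  have hF0sp : 0 < √(F0 : ℝ) := Real.sqrt_pos.2 (by exact_mod_cast hF01)
  have hDs : √(D : ℝ) ≤ (Y : ℝ) ^ (τ' / 2) + √x * (Y : ℝ) ^ (-(θ / 4)) := by
    have h1 : (D : ℝ) ≤ (Y : ℝ) ^ τ' + √x := by
      rw [hD]
      push_cast
      apply max_le
      · have : (0 : ℝ) ≤ √x := hsx0.le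
        linarith
      · have : (0 : ℝ) ≤ (Y : ℝ) ^ τ' := by positivity
        linarith
    have h3 : √(√x) ≤ √x * (Y : ℝ) ^ (-(θ / 4)) := by
      have h4 : √(√x) * √(√x) = √x := Real.mul_self_sqrt hsx0.le
      have h5 : 0 < √(√x) := Real.sqrt_pos.2 hsx0
      have h6 : (Y : ℝ) ^ (θ / 4) ≤ √(√x) := by
        apply Real.le_sqrt_of_sq_le
        rw [← Real.rpow_natCast, ← Real.rpow_mul hY0.le]
        refine le_trans (le_of_eq ?_) hYs
        congr 1
        push_cast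
        ring
      calc √(√x) = √(√x) * ((Y : ℝ) ^ (θ / 4) * (Y : ℝ) ^ (-(θ / 4))) := by
            rw [← Real.rpow_add hY0]; simp
        _ ≤ √(√x) * (√(√x) * (Y : ℝ) ^ (-(θ / 4))) := by gcongr
        _ = _ := by rw [← mul_assoc, h4]
    refine (Real.sqrt_le_sqrt h1).trans ?_
    have h7 : √((Y : ℝ) ^ τ' + √x) ≤ √((Y : ℝ) ^ τ') + √(√x) := by
      rw [Real.sqrt_le_left (by positivity)]
      have q1 := Real.sq_sqrt (show (0 : ℝ) ≤ (Y : ℝ) ^ τ' by positivity)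
      have q2 := Real.sq_sqrt hsx0.le
      have q3 := Real.sqrt_nonneg ((Y : ℝ) ^ τ')
      have q4 := Real.sqrt_nonneg (√x)
      nlinarith
    have h8 : √((Y : ℝ) ^ τ') = (Y : ℝ) ^ (τ' / 2) := by
      rw [Real.sqrt_eq_rpow, ← Real.rpow_mul hY0.le]
      congr 1
      ring
    rw [h8] at h7
    linarith
  set ELS : ℝ := 3 * (2 + Real.log D) * Real.sqrt (∑ b ∈ Icc 1 X, al x b ^ 2) *
        (Real.sqrt S.card * (Real.sqrt X + D) +
          S.card * Real.sqrt B2 * (Real.sqrt X / Real.sqrt F0 + Real.sqrt D)) with hELS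
  have hELSb : 5 * L * (Sc 1 D * ELS) ≤ 30 * CS * L ^ 5 * √x * (√(S.card) * (√x + D)) +
      S.card * (c0 / 100 * G) := by
    have h2' : Real.sqrt X ≤ √x := Real.sqrt_le_sqrt hXx
    have h4' : Real.sqrt (∑ b ∈ Icc 1 X, al x b ^ 2) ≤ √x * L := by
      refine (Real.sqrt_le_sqrt (al_sq x hx1)).trans ?_
      rw [Real.sqrt_mul hx0.le, Real.sqrt_sq hlx0]
      exact mul_le_mul_of_nonneg_left hlx hsx0.le
    have h5' : ELS ≤ 3 * (2 * L) * (√x * L) * (√(S.card) * (√x + D) +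
        S.card * √B2 * (√x / √(F0 : ℝ) + √(D : ℝ))) := by
      rw [hELS]
      have h6 : 2 + Real.log D ≤ 2 * L := by linarith
      gcongr
    have h6' : 5 * L * (Sc 1 D * ELS) ≤ 5 * L * (CS * L ^ 2 *
        (3 * (2 * L) * (√x * L) * (√(S.card) * (√x + D) +
        S.card * √B2 * (√x / √(F0 : ℝ) + √(D : ℝ))))) := by
      have : 0 ≤ ELS := by rw [hELS]; positivity
      gcongr
    refine h6'.trans ?_
    have h7' : 30 * CS * L ^ 5 * √x * (√B2 * (√x / √(F0 : ℝ) + √(D : ℝ))) ≤ c0 / 100 * G := by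
      have k1 : √B2 * (√x / √(F0 : ℝ)) ≤ √(2 * Ce) * (3 * √x * (Y : ℝ) ^ (-(θ / 16))) := by
        rw [hsB2, mul_assoc]
        apply mul_le_mul_of_nonneg_left _ (Real.sqrt_nonneg _)
        have k2 : √x / √(F0 : ℝ) ≤ 3 * √x * (Y : ℝ) ^ (-(θ / 8)) := by
          rw [div_le_iff₀ hF0sp]
          calc √x = 3 * √x * (Y : ℝ) ^ (-(θ / 8)) * ((Y : ℝ) ^ (θ / 8) / 3) := by
                have : (Y : ℝ) ^ (-(θ / 8)) * (Y : ℝ) ^ (θ / 8) = 1 := by
                  rw [← Real.rpow_add hY0]; simp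
                calc √x = √x * ((Y : ℝ) ^ (-(θ / 8)) * (Y : ℝ) ^ (θ / 8)) := by rw [this, mul_one]
                  _ = _ := by ring
            _ ≤ _ := by gcongr
        calc (Y : ℝ) ^ (β / 2) * (√x / √(F0 : ℝ)) ≤
            (Y : ℝ) ^ (β / 2) * (3 * √x * (Y : ℝ) ^ (-(θ / 8))) := by gcongr
          _ = 3 * √x * ((Y : ℝ) ^ (β / 2) * (Y : ℝ) ^ (-(θ / 8))) := by ring
          _ = 3 * √x * (Y : ℝ) ^ (β / 2 + -(θ / 8)) := by rw [← Real.rpow_add hY0]
          _ ≤ 3 * √x * (Y : ℝ) ^ (-(θ / 16)) := by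
              apply mul_le_mul_of_nonneg_left _ (by positivity)
              exact Real.rpow_le_rpow_of_exponent_le hY1 (by linarith)
      have k3 : √B2 * √(D : ℝ) ≤ √(2 * Ce) * (√x * (Y : ℝ) ^ (-((θ - τ) / 4)) +
          √x * (Y : ℝ) ^ (-(θ / 16))) := by
        rw [hsB2, mul_assoc]
        apply mul_le_mul_of_nonneg_left _ (Real.sqrt_nonneg _)
        calc (Y : ℝ) ^ (β / 2) * √(D : ℝ) ≤ (Y : ℝ) ^ (β / 2) *
            ((Y : ℝ) ^ (τ' / 2) + √x * (Y : ℝ) ^ (-(θ / 4))) := by gcongr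
          _ = (Y : ℝ) ^ (β / 2 + τ' / 2) + √x * (Y : ℝ) ^ (β / 2 + -(θ / 4)) := by
              rw [Real.rpow_add hY0, Real.rpow_add hY0]; ring
          _ ≤ _ := by
              apply add_le_add
              · calc (Y : ℝ) ^ (β / 2 + τ' / 2) ≤ (Y : ℝ) ^ (θ / 2 + -((θ - τ) / 4)) := by
                      apply Real.rpow_le_rpow_of_exponent_le hY1
                      rw [hτ']
                      linarith
                  _ = (Y : ℝ) ^ (θ / 2) * (Y : ℝ) ^ (-((θ - τ) / 4)) := Real.rpow_add hY0 _ _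
                  _ ≤ _ := by gcongr
              · apply mul_le_mul_of_nonneg_left _ hsx0.le
                exact Real.rpow_le_rpow_of_exponent_le hY1 (by linarith)
      have hK9e : 30 * CS = K9 * (c0 / 100) := by
        rw [hK9]; field_simp; ring
      have k4 : 4 * K9 * √(2 * Ce) * L ^ 6 * (Y : ℝ) ^ (-(θ / 16)) ≤ 1 / 2 := by
        have : (Y : ℝ) ^ (θ / 16) * (Y : ℝ) ^ (-(θ / 16)) = 1 := by
          rw [← Real.rpow_add hY0]; simp
        calc 4 * K9 * √(2 * Ce) * L ^ 6 * (Y : ℝ) ^ (-(θ / 16)) =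
            1 / 2 * ((8 * K9 * √(2 * Ce) * L ^ 6) * (Y : ℝ) ^ (-(θ / 16))) := by ring
          _ ≤ 1 / 2 * ((Y : ℝ) ^ (θ / 16) * (Y : ℝ) ^ (-(θ / 16))) := by gcongr
          _ = 1 / 2 := by rw [this, mul_one]
      have k5 : K9 * √(2 * Ce) * L ^ 6 * (Y : ℝ) ^ (-((θ - τ) / 4)) ≤ 1 / 2 := by
        have : (Y : ℝ) ^ ((θ - τ) / 4) * (Y : ℝ) ^ (-((θ - τ) / 4)) = 1 := by
          rw [← Real.rpow_add hY0]; simp
        calc K9 * √(2 * Ce) * L ^ 6 * (Y : ℝ) ^ (-((θ - τ) / 4)) =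
            1 / 2 * ((2 * K9 * √(2 * Ce) * L ^ 6) * (Y : ℝ) ^ (-((θ - τ) / 4))) := by ring
          _ ≤ 1 / 2 * ((Y : ℝ) ^ ((θ - τ) / 4) * (Y : ℝ) ^ (-((θ - τ) / 4))) := by gcongr
          _ = 1 / 2 := by rw [this, mul_one]
      have k6 : √B2 * (√x / √(F0 : ℝ) + √(D : ℝ)) ≤ √(2 * Ce) * √x *
          (4 * (Y : ℝ) ^ (-(θ / 16)) + (Y : ℝ) ^ (-((θ - τ) / 4))) := by
        calc √B2 * (√x / √(F0 : ℝ) + √(D : ℝ)) = √B2 * (√x / √(F0 : ℝ)) + √B2 * √(D : ℝ) := by ring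
          _ ≤ _ := add_le_add k1 k3
          _ = _ := by ring
      have hG' : c0 / 100 * G = c0 / 100 * x / L := by rw [hG]; ring
      rw [hG', hK9e, le_div_iff₀ hL0]
      calc K9 * (c0 / 100) * L ^ 5 * √x * (√B2 * (√x / √(F0 : ℝ) + √(D : ℝ))) * L ≤
          K9 * (c0 / 100) * L ^ 5 * √x * (√(2 * Ce) * √x *
          (4 * (Y : ℝ) ^ (-(θ / 16)) + (Y : ℝ) ^ (-((θ - τ) / 4)))) * L := by gcongr
        _ = c0 / 100 * (√x * √x) * (4 * K9 * √(2 * Ce) * L ^ 6 * (Y : ℝ) ^ (-(θ / 16)) +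
            K9 * √(2 * Ce) * L ^ 6 * (Y : ℝ) ^ (-((θ - τ) / 4))) := by ring
        _ ≤ c0 / 100 * (√x * √x) * (1 / 2 + 1 / 2) := by gcongr
        _ = c0 / 100 * x := by rw [hsx]; ring
    have h8' : (0 : ℝ) ≤ S.card := Nat.cast_nonneg _
    have h9' := mul_le_mul_of_nonneg_left h7' h8'
    calc 5 * L * (CS * L ^ 2 *
        (3 * (2 * L) * (√x * L) * (√(S.card) * (√x + D) +
        S.card * √B2 * (√x / √(F0 : ℝ) + √(D : ℝ))))) =
        30 * CS * L ^ 5 * √x * (√(S.card) * (√x + D)) +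
        S.card * (30 * CS * L ^ 5 * √x * (√B2 * (√x / √(F0 : ℝ) + √(D : ℝ)))) := by ring
      _ ≤ _ := by linarith
  -- the total error
  have herr := err_sparse X Z F0 D (al x) S hSZ hF01 B2 hB20 hB2b hF0D c (5 * L) (by positivity) w1
    (fun d hd => (w2 d hd).1) R hRb
  have hcD : ∀ d, c d ≠ 0 → Squarefree d ∧ d ≤ D := by
    intro d hd
    refine ⟨(w2 d hd).1, ?_⟩
    exact (Nat.le_floor (w2 d hd).2).trans (le_max_left _ _)
  -- lower bounds for each n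
  have hpt : ∀ n ∈ S, ∑ d ∈ (Icc 1 D).filter (fun d => Nat.Coprime n d), c d * Ed X (al x) d n ≤
      -(c0 * 3 / 100 * G) := by
    intro n hn
    obtain ⟨h1, h2, h3, h4⟩ := hS n hn
    have h5 := GW.lowT x (WW Y ζ υ aw bw) n D c (5 * L) B R R' hx1
      (hxY.trans_lt (by exact_mod_cast h1)) (by positivity) w1 hcD
      w3 (hBb n hn) hRb (by positivity) (hRb' n hn)
    have h6 := GW.TT_le x (WW Y ζ υ aw bw) (fun N => WW_le_one Y ζ υ aw bw hb hab N) hx1 n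
    have h7 : ∑ d ∈ (Icc 1 D).filter (fun d => Nat.Coprime n d),
        c d * (1 / (Nat.totient d : ℝ)) =
        ∑ d ∈ (Icc 1 D0).filter (fun d => Nat.Coprime n d), c d * (1 / (Nat.totient d : ℝ)) := by
      symm
      apply sum_subset
      · intro d hd
        rw [mem_filter, mem_Icc] at hd ⊢
        exact ⟨⟨hd.1.1, hd.1.2.trans (le_max_left _ _)⟩, hd.2⟩
      · intro d hd hd'
        rw [mem_filter, mem_Icc] at hd hd'
        have : c d = 0 := by
          by_contra hne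
          exact hd' ⟨⟨hd.1.1, Nat.le_floor (w2 d hne).2⟩, hd.2⟩
        rw [this, zero_mul]
    have h8 := w4 n (by omega) h2 h3
    rw [← h7] at h8
    have hs1 := one_le_sgs n
    have h10 : Real.log x * GW.cnt x (WW Y ζ υ aw bw) n ≤ c0 / 100 * G * sgs n := by
      calc Real.log x * GW.cnt x (WW Y ζ υ aw bw) n ≤ L * (c0 / 100 * x / L ^ 2 * sgs n) := by
            apply mul_le_mul hlx h4.le (by positivity) hL0.le
        _ = c0 / 100 * G * sgs n := by
            rw [hG]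
            field_simp
    have h11 : x / 20 * (c0 / L * sgs n) ≤ M * ∑ d ∈ (Icc 1 D).filter (fun d => Nat.Coprime n d),
        c d * (1 / (Nat.totient d : ℝ)) := by
      apply mul_le_mul hM h8 (by positivity)
      exact le_trans (by positivity) hM
    have h12 : x / 20 * (c0 / L * sgs n) = c0 * 5 / 100 * G * sgs n := by
      rw [hG]
      field_simp
      ring
    have h13 : 2 * √x * Real.log x ≤ 2 * √x * L := mul_le_mul_of_nonneg_left hlx (by positivity)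
    have h14 : G ≤ G * sgs n := le_mul_of_one_le_right hG0.le hs1
    have h15 : c0 * G ≤ c0 * (G * sgs n) := mul_le_mul_of_nonneg_left h14 hc0.le
    linarith
  -- exchange of the sums
  have hswap : ∑ n ∈ S, ∑ d ∈ (Icc 1 D).filter (fun d => Nat.Coprime n d),
      c d * Ed X (al x) d n = ∑ d ∈ Icc 1 D, c d * ∑ n ∈ S.filter (fun n => n.Coprime d),
        Ed X (al x) d n := by
    simp_rw [sum_filter]
    rw [sum_comm]
    apply sum_congr rfl
    intro d _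
    rw [mul_sum]
    apply sum_congr rfl
    intro n _
    split_ifs <;> simp
  have hsum := sum_le_sum hpt
  rw [hswap, sum_const, nsmul_eq_mul] at hsum
  have habs := (abs_le.1 herr).1
  -- conclusion
  have hfin : (S.card : ℝ) * (c0 / 100 * G) ≤ 30 * CS * L ^ 5 * √x * (√(S.card) * (√x + D)) := by
    have h1 : 5 * L * (Sc 1 D * (S.card * (BVs + F0 * R) + ELS)) =
        S.card * (5 * L * (Sc 1 D * (BVs + F0 * R))) + 5 * L * (Sc 1 D * ELS) := by ring
    have h2 : (S.card : ℝ) * (5 * L * (Sc 1 D * (BVs + F0 * R))) ≤ S.card * (c0 / 100 * G) :=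
      mul_le_mul_of_nonneg_left ec (by positivity)
    have h3 : (S.card : ℝ) * (c0 * 3 / 100 * G) ≤
        5 * L * (Sc 1 D * (S.card * (BVs + F0 * R) + ELS)) := by
      linarith
    rw [h1] at h3
    linarith
  rcases Nat.eq_zero_or_pos S.card with h0 | h0
  · rw [h0]
    push_cast
    positivity
  have hcard : (0 : ℝ) < S.card := by exact_mod_cast h0
  have hsc : √(S.card : ℝ) * √(S.card : ℝ) = S.card := Real.mul_self_sqrt hcard.le
  have hsc0 : 0 < √(S.card : ℝ) := Real.sqrt_pos.2 hcard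
  have hDx2 : √x + D ≤ 3 * (√x * (Y : ℝ) ^ (τ' - θ / 2)) := by
    have h1 : √x ≤ √x * (Y : ℝ) ^ (τ' - θ / 2) :=
      le_mul_of_one_le_right hsx0.le (Real.one_le_rpow hY1 (by linarith))
    have h3 : (Y : ℝ) ^ τ' ≤ √x * (Y : ℝ) ^ (τ' - θ / 2) := by
      calc (Y : ℝ) ^ τ' = (Y : ℝ) ^ (θ / 2) * (Y : ℝ) ^ (τ' - θ / 2) := by
            rw [← Real.rpow_add hY0]; congr 1; ring
        _ ≤ _ := by gcongr
    have h4 : (D : ℝ) ≤ √x * (Y : ℝ) ^ (τ' - θ / 2) := by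
      rw [hD]
      push_cast
      exact max_le (hD0le.trans h3) (hF0x.trans h1)
    have h5 : 0 ≤ √x * (Y : ℝ) ^ (τ' - θ / 2) := by positivity
    linarith
  have h1 : √(S.card : ℝ) ≤ 3 * K9 * L ^ 6 * (Y : ℝ) ^ (τ' - θ / 2) := by
    have hK9e : 30 * CS = K9 * (c0 / 100) := by
      rw [hK9]; field_simp; ring
    have e1 : (√(S.card : ℝ)) * (√(S.card : ℝ) * x * (c0 / 100)) ≤
        (3 * K9 * L ^ 6 * (Y : ℝ) ^ (τ' - θ / 2)) * (√(S.card : ℝ) * x * (c0 / 100)) := by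
      have e2 : (S.card : ℝ) * (c0 / 100 * G) * L =
          (√(S.card : ℝ)) * (√(S.card : ℝ) * x * (c0 / 100)) := by
        rw [hG]
        field_simp
        rw [sq, hsc]
      have e3 : 30 * CS * L ^ 5 * √x * (√(S.card) * (√x + D)) * L ≤
          (3 * K9 * L ^ 6 * (Y : ℝ) ^ (τ' - θ / 2)) * (√(S.card : ℝ) * x * (c0 / 100)) := by
        rw [hK9e]
        calc K9 * (c0 / 100) * L ^ 5 * √x * (√(S.card) * (√x + D)) * L ≤
            K9 * (c0 / 100) * L ^ 5 * √x * (√(S.card) * (3 * (√x * (Y : ℝ) ^ (τ' - θ / 2)))) * L := by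
              gcongr
          _ = (3 * K9 * L ^ 6 * (Y : ℝ) ^ (τ' - θ / 2)) *
              (√(S.card : ℝ) * (√x * √x) * (c0 / 100)) := by ring
          _ = _ := by rw [hsx]
      rw [← e2]
      exact (mul_le_mul_of_nonneg_right hfin hL0.le).trans e3
    exact le_of_mul_le_mul_right e1 (by positivity)
  have h3 : √(S.card : ℝ) ≤ (Y : ℝ) ^ (ε / 8 + (τ' - θ / 2)) := by
    rw [Real.rpow_add hY0]
    exact h1.trans (mul_le_mul_of_nonneg_right f7 (by positivity))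
  have h5 : (S.card : ℝ) ≤ (Y : ℝ) ^ (2 * (ε / 8 + (τ' - θ / 2))) := by
    calc (S.card : ℝ) = √(S.card : ℝ) * √(S.card : ℝ) := hsc.symm
      _ ≤ (Y : ℝ) ^ (ε / 8 + (τ' - θ / 2)) * (Y : ℝ) ^ (ε / 8 + (τ' - θ / 2)) :=
          mul_le_mul h3 h3 (by positivity) (by positivity)
      _ = _ := by
          rw [← Real.rpow_add hY0]
          congr 1
          ring
  refine h5.trans (Real.rpow_le_rpow_of_exponent_le hY1 ?_)
  rw [hτ']
  linarith

end Pool.Agent.K3h19.RV
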