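import Pool.Agent.Y882.KW.Num

/-! The weights of Richert with the best parameters, for every number `r` of prime factors. -/

set_option autoImplicit false

namespace Pool.Agent.K3h19.RV

open Real

/-- the constant of Richert, `r + 1 - log (4 / (1 + 3 ^ (-r))) / log 3` -/
noncomputable def Lam (r : ℕ) : ℝ := 1 + log ((3 ^ r + 1) / 4) / log 3

theorem log3_pos : 1 < log 3 := by linarith [Pool.Agent.Y882.KW.log3.1]

theorem richert (r : ℕ) (hr : 1 ≤ r) (τ : ℝ) (hτ : 0 < τ) (h : 1 < τ * Lam r) :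
    ∃ υ lam S : ℝ, τ / 4 ≤ υ ∧ υ < τ ∧ 0 < lam ∧ 1 < S ∧ 1 / lam + S / υ ≤ r + 1 ∧
      ∫ x in (τ / 4)..υ, (lam - lam / υ * x) / (τ - x) / x < log (τ / (τ / 4) - 1) / τ := by
  set u : ℝ := 3 ^ r with hu
  have hu3 : 3 ≤ u := by
    calc (3 : ℝ) = 3 ^ 1 := (pow_one _).symm
      _ ≤ 3 ^ r := pow_le_pow_right₀ (by norm_num) hr
  have hu0 : 0 < u := by linarith
  have hL := log3_pos
  have hL0 : 0 < log 3 := by linarith
  have hlu : log u = r * log 3 := by rw [hu, log_pow]
  set w : ℝ := log (u + 1) - log 4 with hw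
  have hLam : Lam r = 1 + w / log 3 := by
    unfold Lam
    rw [← hu, log_div (by positivity) (by norm_num)]
  set q0 : ℝ := (r * log 3 - w - 1 / u * (log 3 + w)) / log 3 with hq0
  have hkey : q0 + (u + 1) / u * (1 + w / log 3) = r + 1 := by
    rw [hq0]
    field_simp
    ring
  set υ : ℝ := u / (u + 1) * τ with hυ
  have hυ0 : 0 < υ := by positivity
  have hυτ : υ < τ := by
    rw [hυ, div_mul_eq_mul_div, div_lt_iff₀ (by positivity)]
    nlinarith
  have hτυ : τ / 4 ≤ υ := by
    rw [hυ, div_mul_eq_mul_div, div_le_div_iff₀ (by norm_num) (by positivity)]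
    nlinarith
  have hg : 0 < r + 1 - q0 - 1 / υ := by
    have h1 : 1 / τ < 1 + w / log 3 := by
      rw [div_lt_iff₀ hτ, ← hLam, mul_comm]
      exact h
    have h2 : 1 / υ = (u + 1) / u * (1 / τ) := by
      rw [hυ]; field_simp
    have h3 : (u + 1) / u * (1 / τ) < (u + 1) / u * (1 + w / log 3) :=
      mul_lt_mul_of_pos_left h1 (by positivity)
    rw [h2]
    linarith
  have hq00 : 0 < q0 := by
    rw [hq0]
    apply div_pos _ hL0
    have h1 : log (3 * (u + 1) / 4) = log 3 + w := by
      rw [hw, log_div (by positivity) (by norm_num), log_mul (by norm_num) (by positivity)]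
      ring
    have h2 : log (4 * u / (u + 1)) = r * log 3 - w := by
      rw [hw, log_div (by positivity) (by positivity), log_mul (by norm_num) (by positivity), hlu]
      ring
    have h3 : log 3 ≤ log (4 * u / (u + 1)) := by
      apply log_le_log (by norm_num)
      rw [le_div_iff₀ (by positivity)]
      linarith
    have h4 : log (3 * (u + 1) / 4) ≤ u - 1 := by
      have h5 := log_le_sub_one_of_pos (show (0 : ℝ) < 3 * (u + 1) / 4 by positivity)
      linarith
    have h6 : 1 / u * log (3 * (u + 1) / 4) ≤ 1 := by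
      rw [one_div, inv_mul_le_iff₀ hu0]
      linarith
    rw [← h1, ← h2]
    linarith
  set g : ℝ := r + 1 - q0 - 1 / υ with hgd
  refine ⟨υ, 1 / (q0 + g / 2), 1 + g / 2 * υ, hτυ, hυτ, by positivity, ?_, ?_, ?_⟩
  · have : 0 < g / 2 * υ := by positivity
    linarith
  · rw [one_div_one_div, add_div, mul_div_assoc, div_self hυ0.ne', mul_one, hgd]
    linarith
  · apply Pool.Agent.Y882.KW.cond_log _ τ (τ / 4) υ (by positivity) (by positivity) hτυ hυτ
    have e1 : υ / (τ / 4) = 4 * u / (u + 1) := by rw [hυ]; field_simp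
    have e2 : τ / υ - 1 = 1 / u := by rw [hυ]; field_simp; ring
    have e3 : (τ - τ / 4) / (τ - υ) = 3 * (u + 1) / 4 := by
      have : τ - υ = τ / (u + 1) := by rw [hυ]; field_simp; ring
      rw [this]
      field_simp
      ring
    have e4 : τ / (τ / 4) - 1 = 3 := by field_simp; norm_num
    rw [e1, e2, e3, e4, one_div_one_div]
    have h1 : log (3 * (u + 1) / 4) = log 3 + w := by
      rw [hw, log_div (by positivity) (by norm_num), log_mul (by norm_num) (by positivity)]
      ring
    have h2 : log (4 * u / (u + 1)) = r * log 3 - w := by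
      rw [hw, log_div (by positivity) (by positivity), log_mul (by norm_num) (by positivity), hlu]
      ring
    rw [h1, h2]
    have h3 : q0 * log 3 = r * log 3 - w - 1 / u * (log 3 + w) := by
      rw [hq0, div_mul_cancel₀ _ hL0.ne']
    calc r * log 3 - w - 1 / u * (log 3 + w) = q0 * log 3 := h3.symm
      _ < (q0 + g / 2) * log 3 := by
          apply mul_lt_mul_of_pos_right _ hL0
          linarith

theorem lam_two : 1 + 5 / 6 ≤ Lam 2 := by
  unfold Lam
  have hL0 : 0 < log 3 := by linarith [log3_pos]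
  have : (5 : ℝ) / 6 ≤ log ((3 ^ 2 + 1) / 4) / log 3 := by
    rw [le_div_iff₀ hL0]
    have h1 : log ((3 : ℝ) ^ 5) ≤ log (((3 ^ 2 + 1) / 4 : ℝ) ^ 6) :=
      log_le_log (by norm_num) (by norm_num)
    rw [log_pow, log_pow] at h1
    push_cast at h1
    linarith
  linarith

theorem lam_three : 1 + 131 / 74 ≤ Lam 3 := by
  unfold Lam
  have hL0 : 0 < log 3 := by linarith [log3_pos]
  have : (131 : ℝ) / 74 ≤ log ((3 ^ 3 + 1) / 4) / log 3 := by
    rw [le_div_iff₀ hL0]
    have h1 : log ((3 : ℝ) ^ 131) ≤ log (((3 ^ 3 + 1) / 4 : ℝ) ^ 74) :=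
      log_le_log (by norm_num) (by norm_num)
    rw [log_pow, log_pow] at h1
    push_cast at h1
    linarith
  linarith

theorem lam_four : 1 + 151 / 55 ≤ Lam 4 := by
  unfold Lam
  have hL0 : 0 < log 3 := by linarith [log3_pos]
  have : (151 : ℝ) / 55 ≤ log ((3 ^ 4 + 1) / 4) / log 3 := by
    rw [le_div_iff₀ hL0]
    have h1 : log ((3 : ℝ) ^ 151) ≤ log (((3 ^ 4 + 1) / 4 : ℝ) ^ 55) :=
      log_le_log (by norm_num) (by norm_num)
    rw [log_pow, log_pow] at h1
    push_cast at h1
    linarith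
  linarith

end Pool.Agent.K3h19.RV
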