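import Pool.Agent.K3h19.RV.Blk
import Pool.Agent.K3h19.RV.Num
import Pool.Agent.Y882.GX.Pt2

/-! The window of Rivera: very few exceptions. -/

set_option autoImplicit false

namespace Pool.Agent.K3h19.RV

open Finset Filter
open Pool.Agent.Y882
open Pool.Agent.Y882.KW
open Pool.Agent.Y882.GW
open Pool.Agent.Y882.GX

open Classical in
/-- one window, for every `r` and `θ` -/
theorem blkR (r : ℕ) (hr : 2 ≤ r) (θ η : ℝ) (hθ0 : 0 < θ) (hθ1 : θ ≤ 1) (hη0 : 0 < η)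
    (hη : 2 / Lam r - θ < η) (hc : 1 / Lam r < θ ∨ 1 / 2 ≤ 1 / Lam r) :
    ∃ ζ : ℝ, θ / 8 < ζ ∧ ∃ δ : ℝ, 0 < δ ∧ ∃ Y0 : ℕ, ∀ Y : ℕ, Y0 ≤ Y → ∀ x : ℝ,
      (Y : ℝ) ^ θ ≤ x → x ≤ Y →
      (((Ioc Y (2 * Y)).filter (fun n => Even n ∧ ((gp r x ((Y : ℝ) ^ ζ) n).card : ℝ) <
        δ * x / Real.log Y ^ 2 * sgs n)).card : ℝ) ≤ (Y : ℝ) ^ η := by
  have hL0 : 0 < Real.log 3 := by linarith [log3_pos]
  have hLam1 : 1 < Lam r := by
    unfold Lam
    have h1 : 0 < Real.log ((3 ^ r + 1) / 4) := by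
      apply Real.log_pos
      have : (3 : ℝ) ^ 2 ≤ 3 ^ r := pow_le_pow_right₀ (by norm_num) hr
      rw [lt_div_iff₀ (by norm_num)]
      linarith
    have := div_pos h1 hL0
    linarith
  have hLam0 : 0 < Lam r := by linarith
  set m : ℝ := 1 / Lam r with hm
  have hm1 : m < 1 := by rw [hm, div_lt_one hLam0]; exact hLam1
  have hm0 : 0 < m := by positivity
  have hm2 : 2 / Lam r = 2 * m := by rw [hm]; ring
  rw [hm2] at hη
  have hmul : ∀ τ : ℝ, m < τ → 1 < τ * Lam r := by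
    intro τ h
    rw [hm, div_lt_iff₀ hLam0] at h
    exact h
  rcases hc with hc | hc
  · -- small levels
    obtain ⟨τ, t1, t2⟩ : ∃ τ : ℝ, max m (θ / 2) < τ ∧ τ < min θ ((η + θ) / 2) := by
      apply _root_.exists_between
      apply max_lt
      · exact lt_min hc (by linarith)
      · exact lt_min (by linarith) (by linarith)
    have t3 : m < τ := (le_max_left _ _).trans_lt t1
    have t4 : θ / 2 < τ := (le_max_right _ _).trans_lt t1
    have t5 : τ < θ := t2.trans_le (min_le_left _ _)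
    have t6 : τ < (η + θ) / 2 := t2.trans_le (min_le_right _ _)
    have hτ0 : 0 < τ := by linarith
    obtain ⟨υ, lam, S, g1, g2, g3, g4, g5, g6⟩ := richert r (by omega) τ hτ0 (hmul τ t3)
    obtain ⟨δ, hδ, Y0, H⟩ := blk1 r θ τ (τ / 4) υ lam S hθ0 hθ1 (by linarith) (by linarith)
      (by linarith) t4.le t5 g1 g2 g3 g6 g4 g5 (η - (2 * τ - θ)) (by linarith)
    refine ⟨τ / 4, by linarith, δ, hδ, Y0, fun Y hY x hx1 hx2 => ?_⟩
    have := H Y hY x hx1 hx2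
    rwa [show 2 * τ - θ + (η - (2 * τ - θ)) = η by ring] at this
  · obtain ⟨τ, t1, t2⟩ : ∃ τ : ℝ, max m (θ / 2) < τ ∧ τ < min 1 ((η + θ) / 2) := by
      apply _root_.exists_between
      apply max_lt
      · exact lt_min hm1 (by linarith)
      · exact lt_min (by linarith) (by linarith)
    have t3 : m < τ := (le_max_left _ _).trans_lt t1
    have t4 : θ / 2 < τ := (le_max_right _ _).trans_lt t1
    have t5 : τ < 1 := t2.trans_le (min_le_left _ _)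
    have t6 : τ < (η + θ) / 2 := t2.trans_le (min_le_right _ _)
    have hτ0 : 0 < τ := by linarith
    obtain ⟨υ, lam, S, g1, g2, g3, g4, g5, g6⟩ := richert r (by omega) τ hτ0 (hmul τ t3)
    obtain ⟨δ, hδ, Y0, H⟩ := blk2 r θ τ (τ / 4) υ lam S hθ0 hθ1 (by linarith) (by linarith)
      (by linarith) (by linarith) t5 g1 g2 g3 g6 g4 g5 (η - (2 * τ - θ)) (by linarith)
    refine ⟨τ / 4, by linarith, δ, hδ, Y0, fun Y hY x hx1 hx2 => ?_⟩
    have := H Y hY x hx1 hx2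
    rwa [show 2 * τ - θ + (η - (2 * τ - θ)) = η by ring] at this

open Classical in
/-- **The window of Rivera, very few exceptions.** -/
theorem few (r : ℕ) (hr : 2 ≤ r) (η : ℝ) (hη0 : 0 < η) (hη : 2 / Lam r - 1 / 2 < η) :
    ∃ δ C : ℝ, 0 < δ ∧ 0 < C ∧ ∀ X : ℕ, 1 ≤ X →
      (((Icc 1 X).filter (fun N : ℕ => Even N ∧
        (inSqrt r ((N : ℝ) ^ ((1 : ℝ) / 16)) N : ℝ) <
          δ * sgs N * (√(N : ℝ) / Real.log N ^ 2))).card : ℝ) ≤ C * (X : ℝ) ^ η := by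
  obtain ⟨ζ, hζ, δ, hδ, Y0, H⟩ := blkR r hr (1 / 2) η (by norm_num) (by norm_num) hη0 hη
    (lt_or_ge _ _)
  have ev1 : ∀ᶠ Y : ℕ in atTop, (2 : ℝ) ^ ((1 : ℝ) / 16) ≤ (Y : ℝ) ^ (ζ - 1 / 16) :=
    ((tendsto_rpow_atTop (by linarith)).comp tendsto_natCast_atTop_atTop).eventually_ge_atTop _
  obtain ⟨Y1, hY1⟩ := eventually_atTop.1 ev1
  obtain ⟨C, hC, hcum⟩ := Pool.Agent.Y882.cum (fun N : ℕ => Even N ∧
    (inSqrt r ((N : ℝ) ^ ((1 : ℝ) / 16)) N : ℝ) < δ * sgs N * (√(N : ℝ) / Real.log N ^ 2))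
    η hη0 (max (max Y0 Y1) 16) (by
    intro Y hY
    have hY0 : Y0 ≤ Y := ((le_max_left _ _).trans (le_max_left _ _)).trans hY
    have e1 := hY1 Y (((le_max_right _ _).trans (le_max_left _ _)).trans hY)
    have hY3 : 16 ≤ Y := (le_max_right _ _).trans hY
    have hYr : (16 : ℝ) ≤ Y := by exact_mod_cast hY3
    have hYp : (0 : ℝ) < Y := by linarith
    have hlY : 0 < Real.log Y := Real.log_pos (by linarith)
    have hs0 : 0 < (Y : ℝ) ^ ((1 : ℝ) / 2) := by positivity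
    have e3 : 4 * (Y : ℝ) ^ ((1 : ℝ) / 2) ≤ Y := by
      rw [← Real.sqrt_eq_rpow]
      have h4 : 4 ≤ √(Y : ℝ) := by
        rw [Real.le_sqrt' (by norm_num)]
        linarith
      have := mul_le_mul_of_nonneg_right h4 (Real.sqrt_nonneg (Y : ℝ))
      rwa [Real.mul_self_sqrt (by linarith)] at this
    refine le_trans ?_ (H Y hY0 (4 * (Y : ℝ) ^ ((1 : ℝ) / 2)) (by linarith) e3)
    apply Nat.cast_le.2
    apply card_le_card
    intro n hn
    rw [mem_filter, mem_Ioc] at hn ⊢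
    obtain ⟨⟨h2, h3⟩, h4, h5⟩ := hn
    refine ⟨⟨h2, h3⟩, h4, ?_⟩
    have h12 : (n : ℝ) ≤ 2 * Y := by exact_mod_cast h3
    have h13 : (Y : ℝ) < n := by exact_mod_cast h2
    have hv : (n : ℝ) ^ ((1 : ℝ) / 16) ≤ (Y : ℝ) ^ ζ := by
      calc (n : ℝ) ^ ((1 : ℝ) / 16) ≤ (2 * (Y : ℝ)) ^ ((1 : ℝ) / 16) :=
            Real.rpow_le_rpow (by positivity) h12 (by norm_num)
        _ = 2 ^ ((1 : ℝ) / 16) * (Y : ℝ) ^ ((1 : ℝ) / 16) :=
            Real.mul_rpow (by norm_num) (by positivity)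
        _ ≤ (Y : ℝ) ^ (ζ - 1 / 16) * (Y : ℝ) ^ ((1 : ℝ) / 16) :=
            mul_le_mul_of_nonneg_right e1 (by positivity)
        _ = (Y : ℝ) ^ ζ := by
            rw [← Real.rpow_add hYp]
            congr 1
            ring
    have h6 := gp_le_inSqrt r ((Y : ℝ) ^ ζ) ((n : ℝ) ^ ((1 : ℝ) / 16)) hv Y n hY3 h2 h3
    have h7 : ((gp r (4 * (Y : ℝ) ^ ((1 : ℝ) / 2)) ((Y : ℝ) ^ ζ) n).card : ℝ) ≤
        inSqrt r ((n : ℝ) ^ ((1 : ℝ) / 16)) n := by exact_mod_cast h6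
    refine h7.trans_lt (h5.trans_le ?_)
    have hs1 : 1 ≤ sgs n := one_le_sgs n
    have h14 : Real.log Y ≤ Real.log n := Real.log_le_log (by linarith) h13.le
    have h16 : √(n : ℝ) ≤ 4 * (Y : ℝ) ^ ((1 : ℝ) / 2) := by
      rw [← Real.sqrt_eq_rpow, Real.sqrt_le_left (by positivity), mul_pow,
        Real.sq_sqrt hYp.le]
      linarith
    have h15 : √(n : ℝ) / Real.log n ^ 2 ≤ 4 * (Y : ℝ) ^ ((1 : ℝ) / 2) / Real.log Y ^ 2 := by
      apply div_le_div₀ (by positivity) h16 (by positivity)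
      exact pow_le_pow_left₀ hlY.le h14 2
    calc δ * sgs n * (√(n : ℝ) / Real.log n ^ 2) ≤
        δ * sgs n * (4 * (Y : ℝ) ^ ((1 : ℝ) / 2) / Real.log Y ^ 2) :=
          mul_le_mul_of_nonneg_left h15 (by positivity)
      _ = δ * (4 * (Y : ℝ) ^ ((1 : ℝ) / 2)) / Real.log Y ^ 2 * sgs n := by ring)
  exact ⟨δ, C, hδ, hC, fun X hX => hcum X hX⟩

end Pool.Agent.K3h19.RV
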